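import Pool.Agent.Lib.MP_1e901d_co.Large

/-! MP_1e901d_co : classification, in terms of the families of non-negative `k`-subsets, of the
pairs `(k, n)` with `n ≤ 3 k`, of those with `k ∣ n`, of those with
`C(n-3, k) ≤ C(n-1, k-1)`, and of those with `(k-1)(2k²-1) < n-1`. -/

namespace Pool.Agent.Results.MP_1e901d_co.PencilFamilies

open Finset Pool.Agent.Lib.MP1e901d
open scoped Classical

theorem one_min {n : ℕ} (hn : 1 ≤ n) {A : Finset ℝ} (hA : IsMinExtremal 1 n A) :
    IsPencil A := by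
  unfold IsPencil
  rw [← mu_one]
  apply le_antisymm
  · rcases Nat.lt_or_ge n 2 with h | h
    · have hn1 : n = 1 := by omega
      subst hn1
      have := mu_full hA.1
      omega
    · obtain ⟨A', P, hA', hPA, hPc, hPpos, hneg, _⟩ := twoLevel 1 (n - 1) le_rfl (by omega)
      have h1 : 1 + (n - 1) = n := by omega
      rw [h1] at hA'
      refine (hA.2 A' hA').trans ?_
      rw [mu_one, ← hPc]
      apply Finset.card_le_card
      intro a ha
      rw [Finset.mem_filter] at ha
      by_contra haP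
      exact absurd ha.2 (not_le.2 (hneg a ha.1 haP))
  · obtain ⟨a, ha, ha0⟩ := exists_nonneg (by omega) hA.1
    rw [mu_one]
    exact Finset.card_pos.2 ⟨a, Finset.mem_filter.2 ⟨ha, ha0⟩⟩

theorem one_max {n : ℕ} (hn : 2 ≤ n) {A : Finset ℝ} (hA : IsMaxExtremal 1 n A) :
    IsAntiPencil A := by
  obtain ⟨T, P, hT, hPT, hPc, hPpos, hTneg, _⟩ := twoLevel (n - 1) 1 (by omega) le_rfl
  have h1n : (n - 1) + 1 = n := by omega
  rw [h1n] at hT
  have h1 : n - 1 ≤ mu 1 T := by
    rw [mu_one, ← hPc]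
    apply Finset.card_le_card
    intro a ha
    exact Finset.mem_filter.2 ⟨hPT ha, (hPpos a ha).le⟩
  have h2 := hA.2 T hT
  obtain ⟨a, ha, ha0⟩ := exists_neg hn hA.1
  have h3 : (A.filter (fun a => 0 ≤ a)).card + (A.filter (fun a => a < 0)).card = n := by
    rw [← hA.1.1]
    have := Finset.card_filter_add_card_filter_not (s := A) (fun a : ℝ => 0 ≤ a)
    simpa only [not_le] using this
  have h4 : 1 ≤ (A.filter (fun a => a < 0)).card :=
    Finset.card_pos.2 ⟨a, Finset.mem_filter.2 ⟨ha, ha0⟩⟩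
  rw [mu_one A] at h2
  unfold IsAntiPencil
  omega

theorem pencil_family_one {A : Finset ℝ} (h : IsPencil A) : IsPencilFamily 1 A := by
  obtain ⟨x, hx, hx0, hxu⟩ := pencil_elt h
  refine ⟨x, hx, fun B hB hBk => ?_⟩
  obtain ⟨b, rfl⟩ := Finset.card_eq_one.1 hBk
  have hbA : b ∈ A := hB (Finset.mem_singleton_self b)
  rw [Finset.sum_singleton, Finset.mem_singleton]
  constructor
  · intro hb
    by_contra hne
    exact absurd hb (not_le.2 (hxu b hbA (fun h => hne h.symm)))
  · rintro rfl; exact hx0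

theorem antipencil_family_one {A : Finset ℝ} (h : IsAntiPencil A) : IsAntiPencilFamily 1 A := by
  obtain ⟨x, hx, hx0, hxu⟩ := antipencil_elt h
  refine ⟨x, hx, fun B hB hBk => ?_⟩
  obtain ⟨b, rfl⟩ := Finset.card_eq_one.1 hBk
  have hbA : b ∈ A := hB (Finset.mem_singleton_self b)
  rw [Finset.sum_singleton, Finset.mem_singleton]
  constructor
  · rintro hb rfl
    exact absurd hb (not_le.2 hx0)
  · intro hne
    exact hxu b hbA (fun h => hne h.symm)

/-- the largest pairs : `k = n` -/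
theorem full_min {n : ℕ} (hn : 1 ≤ n) {A : Finset ℝ} (hA : Admissible n A) :
    IsPencilFamily n A := by
  have hne : A.Nonempty := by rw [← Finset.card_pos, hA.1]; omega
  obtain ⟨x, hx⟩ := hne
  refine ⟨x, hx, fun B hB hBk => ?_⟩
  have : B = A := Finset.eq_of_subset_of_card_le hB (by rw [hA.1, hBk])
  subst this
  rw [hA.2]
  exact ⟨fun _ => hx, fun _ => le_rfl⟩

theorem full_max {n : ℕ} {A : Finset ℝ} (hA : Admissible n A) :
    ¬ IsAntiPencilFamily n A := by
  rintro ⟨x, hx, h⟩
  have := (h A (Finset.Subset.refl _) hA.1).1 (by rw [hA.2])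
  exact this hx

/-- minimal value in the divisible case -/
theorem min_mu_le {k n : ℕ} (hk : 1 ≤ k) (hkn : k < n) {A : Finset ℝ}
    (hA : IsMinExtremal k n A) : mu k A ≤ (n - 1).choose (k - 1) := by
  classical
  obtain ⟨T, P, hT, hPT, hPc, hPpos, hTneg, hs⟩ := twoLevel 1 (n - 1) le_rfl (by omega)
  have h1n : 1 + (n - 1) = n := by omega
  rw [h1n] at hT
  refine (hA.2 T hT).trans ?_
  obtain ⟨x, rfl⟩ := Finset.card_eq_one.1 hPc
  apply mu_le_star hk hT (hPT (Finset.mem_singleton_self x))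
  intro B hB hBk hxB
  apply Finset.sum_neg
  · intro b hb
    apply hTneg b (hB hb)
    intro h
    rw [Finset.mem_singleton] at h
    exact hxB (h ▸ hb)
  · rw [← Finset.card_pos, hBk]; omega

theorem le_max_mu {k n : ℕ} (hk : 1 ≤ k) (hkn : k < n) {A : Finset ℝ}
    (hA : IsMaxExtremal k n A) : (n - 1).choose k ≤ mu k A := by
  classical
  obtain ⟨T, P, hT, hPT, hPc, hPpos, hTneg, hs⟩ := twoLevel (n - 1) 1 (by omega) le_rfl
  have h1n : (n - 1) + 1 = n := by omega
  rw [h1n] at hT
  refine le_trans ?_ (hA.2 T hT)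
  have hc : (T \ P).card = 1 := by
    rw [Finset.card_sdiff_of_subset hPT, hT.1, hPc]; omega
  obtain ⟨x, hx⟩ := Finset.card_eq_one.1 hc
  have hxT : x ∈ T \ P := by rw [hx]; exact Finset.mem_singleton_self x
  apply costar_le_mu hT (Finset.mem_sdiff.1 hxT).1
  intro B hB hBk hxB
  apply Finset.sum_nonneg
  intro b hb
  have : b ∈ P := by
    by_contra hbP
    have h2 : b ∈ T \ P := Finset.mem_sdiff.2 ⟨hB hb, hbP⟩
    rw [hx, Finset.mem_singleton] at h2
    exact hxB (h2 ▸ hb)
  exact (hPpos b this).le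

/-- the classification -/
theorem classification (k n : ℕ) (hk : 1 ≤ k) (hkn : k ≤ n)
    (h : n ≤ 3 * k ∨ k ∣ n ∨ (n - 3).choose k ≤ (n - 1).choose (k - 1) ∨
      (k - 1) * (2 * k ^ 2 - 1) < n - 1) :
    ((∀ A, IsMinExtremal k n A → IsPencilFamily k A) ↔
        (k = 1 ∨ k = n ∨ (k ∣ n ∧ 3 * k ≤ n) ∨ (k - 1) * (2 * k ^ 2 - 1) < n - 1)) ∧
    ((∀ A, IsMaxExtremal k n A → IsAntiPencilFamily k A) ↔
        ((k ∣ n ∧ 3 * k ≤ n) ∨ (k - 1) * (2 * k ^ 2 - 1) < n - 1)) := by
  classical
  have hadm : ∃ A, Admissible n A := exists_admissible (by omega)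
  obtain ⟨A₀, hA₀⟩ := hadm
  rcases Nat.lt_or_ge k n with hlt | hge
  · rcases Nat.lt_or_ge k 2 with hk1 | hk2
    · -- `k = 1 < n`
      have hk1 : k = 1 := by omega
      subst hk1
      refine ⟨⟨fun _ => Or.inl rfl, fun _ A hA => pencil_family_one (one_min (by omega) hA)⟩,
        ⟨fun _ => Or.inr (by omega), fun _ A hA =>
          antipencil_family_one (one_max (by omega) hA)⟩⟩
    · by_cases hlarge : (k - 1) * (2 * k ^ 2 - 1) < n - 1
      · refine ⟨⟨fun _ => Or.inr (Or.inr (Or.inr hlarge)), fun _ A hA =>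
          large_min hk2 hlarge hA.1 (min_mu_le hk hlt hA)⟩,
          ⟨fun _ => Or.inr hlarge, fun _ A hA =>
          large_max hk2 hlarge hA.1 (le_max_mu hk hlt hA)⟩⟩
      by_cases hdiv : k ∣ n ∧ 3 * k ≤ n
      · obtain ⟨⟨m, hm⟩, h3⟩ := hdiv
        have hm3 : 3 ≤ m := by
          by_contra hcon
          have : k * m ≤ k * 2 := Nat.mul_le_mul_left k (by omega)
          omega
        have hnm : n = m * k := by rw [hm, mul_comm]
        refine ⟨⟨fun _ => Or.inr (Or.inr (Or.inl ⟨⟨m, hm⟩, h3⟩)), fun _ A hA => ?_⟩,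
          ⟨fun _ => Or.inl ⟨⟨m, hm⟩, h3⟩, fun _ A hA => ?_⟩⟩
        · have h1 := min_mu_le hk hlt hA
          have h2 := hA.1
          rw [hnm] at h1 h2
          exact star_min hm3 hk h2 h1
        · have h1 := le_max_mu hk hlt hA
          have h2 := hA.1
          rw [hnm] at h1 h2
          exact star_max hm3 hk2 h2 h1
      · have hneg : (¬ ∀ A, IsMinExtremal k n A → IsPencilFamily k A) ∧
            (¬ ∀ A, IsMaxExtremal k n A → IsAntiPencilFamily k A) := by
          rcases Nat.lt_or_ge (2 * k) n with h2k | h2k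
          · rcases Nat.lt_or_ge n (3 * k) with h3k | h3k
            · exact constr_three hk2 h2k.le h3k
            · have hndvd : ¬ k ∣ n := fun hd => hdiv ⟨hd, h3k⟩
              have hne : n ≠ 3 * k := fun he => hndvd ⟨3, by rw [he, mul_comm]⟩
              rcases h with h | h | h | h
              · omega
              · exact absurd h hndvd
              · exact constr_few_neg hk2 (by omega : 1 ≤ 3) (by omega) h
              · exact absurd h hlarge
          · refine constr_few_neg (q := 1) hk2 le_rfl (by omega) ?_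
            have := choose_le_down (N := n - 1) (j := k - 1) (by omega)
            have hkk : k - 1 + 1 = k := by omega
            rwa [hkk] at this
        refine ⟨⟨fun hall => absurd hall hneg.1, ?_⟩, ⟨fun hall => absurd hall hneg.2, ?_⟩⟩
        · rintro (h | h | h | h)
          · omega
          · omega
          · exact absurd h hdiv
          · exact absurd h hlarge
        · rintro (h | h)
          · exact absurd h hdiv
          · exact absurd h hlarge
  · have hkn' : k = n := le_antisymm hkn hge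
    subst hkn'
    refine ⟨⟨fun _ => Or.inr (Or.inl rfl), fun _ A hA => full_min hk hA.1⟩, ⟨fun hall => ?_, ?_⟩⟩
    · exfalso
      obtain ⟨E, hE⟩ := exists_max k hA₀
      exact full_max hE.1 (hall E hE)
    · rintro (⟨_, h2⟩ | h2)
      · omega
      · exfalso
        have h3 : 1 ≤ 2 * k ^ 2 - 1 := by
          have : 1 ≤ k ^ 2 := Nat.one_le_pow _ _ hk
          omega
        have : (k - 1) * 1 ≤ (k - 1) * (2 * k ^ 2 - 1) := Nat.mul_le_mul_left _ h3
        omega

/-- **Classification in terms of families.**  Let `1 ≤ k ≤ n` with `n ≤ 3 k`, or `k ∣ n`, or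
`C(n-3,k) ≤ C(n-1,k-1)`, or `(k-1)(2k²-1) < n-1`.  The non-negative `k`-subsets of every extremal
example for the minimum are the `k`-subsets through a fixed element iff `k = 1`, `k = n`,
`k ∣ n` and `3 k ≤ n`, or `(k-1)(2k²-1) < n-1`.  The non-negative `k`-subsets of every extremal
example for the maximum are the `k`-subsets avoiding a fixed element iff `k ∣ n` and `3 k ≤ n`, or
`(k-1)(2k²-1) < n-1`; in these cases the extremal values are `C(n-1,k-1)` and `C(n-1,k)`. -/
theorem result (k n : ℕ) (hk : 1 ≤ k) (hkn : k ≤ n)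
    (h : n ≤ 3 * k ∨ k ∣ n ∨ (n - 3).choose k ≤ (n - 1).choose (k - 1) ∨
      (k - 1) * (2 * k ^ 2 - 1) < n - 1) :
    ((∀ A, IsMinExtremal k n A → IsPencilFamily k A) ↔
        (k = 1 ∨ k = n ∨ (k ∣ n ∧ 3 * k ≤ n) ∨ (k - 1) * (2 * k ^ 2 - 1) < n - 1)) ∧
    ((∀ A, IsMaxExtremal k n A → IsAntiPencilFamily k A) ↔
        ((k ∣ n ∧ 3 * k ≤ n) ∨ (k - 1) * (2 * k ^ 2 - 1) < n - 1)) ∧
    (((k ∣ n ∧ 3 * k ≤ n) ∨ (k - 1) * (2 * k ^ 2 - 1) < n - 1) →
      (∀ A, IsMinExtremal k n A → mu k A = (n - 1).choose (k - 1)) ∧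
      (∀ A, IsMaxExtremal k n A → mu k A = (n - 1).choose k)) := by
  obtain ⟨h1, h2⟩ := classification k n hk hkn h
  refine ⟨h1, h2, fun hc => ?_⟩
  have hlt : k < n := by
    rcases hc with ⟨_, h3⟩ | h3
    · omega
    · have h4 : 1 ≤ 2 * k ^ 2 - 1 := by
        have : 1 ≤ k ^ 2 := Nat.one_le_pow _ _ hk
        omega
      have : (k - 1) * 1 ≤ (k - 1) * (2 * k ^ 2 - 1) := Nat.mul_le_mul_left _ h4
      omega
  refine ⟨fun A hA => le_antisymm (min_mu_le hk hlt hA) ?_,
    fun A hA => le_antisymm ?_ (le_max_mu hk hlt hA)⟩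
  · exact pencilFamily_mu hk hA.1 (h1.2 (Or.inr (Or.inr hc)) A hA)
  · exact antiPencilFamily_mu hA.1 (h2.2 hc A hA)

end Pool.Agent.Results.MP_1e901d_co.PencilFamilies
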