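import Pool.Agent.Lib.MP_1e901d_co.Elem

/-! MP_1e901d_co : the classification of the pairs `(k, n)` asked for in Q1 and Q2, with
pencils and anti-pencils being sets with exactly one non-negative, respectively exactly one
negative, element. -/

namespace Pool.Agent.Results.MP_1e901d_co.ElementReading

open Finset Pool.Agent.Lib.MP1e901d
open scoped Classical

/-- **Classification.**  For `1 ≤ k ≤ n` : every extremal example for the minimum of `mu k`
has exactly one non-negative element iff `k = 1` or `n ≤ 2`; every extremal example for the
maximum has exactly one negative element iff `n = 2` or (`k = 1` and `n ≥ 2`). -/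
theorem result (k n : ℕ) (hk : 1 ≤ k) (hkn : k ≤ n) :
    ((∀ A, IsMinExtremal k n A → IsPencil A) ↔ (k = 1 ∨ n ≤ 2)) ∧
    ((∀ A, IsMaxExtremal k n A → IsAntiPencil A) ↔ (n = 2 ∨ (k = 1 ∧ 2 ≤ n))) := by
  classical
  refine ⟨⟨?_, ?_⟩, ⟨?_, ?_⟩⟩
  · intro hall
    by_contra hcon
    push Not at hcon
    obtain ⟨hk1, hn2⟩ := hcon
    obtain ⟨A₀, hA₀⟩ := exists_admissible (n := n) (by omega)
    obtain ⟨E, hE⟩ := exists_min k hA₀
    have hEp := hall E hE
    obtain ⟨x, hx, hx0, hxu⟩ := pencil_elt hEp
    have hlow : (n - 1).choose (k - 1) ≤ mu k E := by
      apply star_le_mu hk hE.1 hx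
      intro B hB hBk hxB
      rw [sum_compl hE.1.2 hB]
      have : ∑ b ∈ E \ B, b ≤ 0 := by
        apply Finset.sum_nonpos
        intro b hb
        rw [Finset.mem_sdiff] at hb
        exact (hxu b hb.1 (fun h => hb.2 (h ▸ hxB))).le
      linarith
    obtain ⟨A, x', y, hA, hx'A, hyA, hxy, hx'0, hy0, hneg⟩ := litSet n (by omega)
    have hup : mu k A ≤ (n - 1).choose (k - 1) := by
      apply mu_le_star hk hA hx'A
      intro B hB hBk hxB
      exact hneg B hB hxB (by omega)
    have hAe : IsMinExtremal k n A :=
      ⟨hA, fun A' hA' => (hup.trans hlow).trans (hE.2 A' hA')⟩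
    have hAp := hall A hAe
    unfold IsPencil at hAp
    have : ({x', y} : Finset ℝ) ⊆ A.filter (fun a => 0 ≤ a) := by
      intro z hz
      rw [Finset.mem_insert, Finset.mem_singleton] at hz
      rw [Finset.mem_filter]
      rcases hz with rfl | rfl
      · exact ⟨hx'A, hx'0.le⟩
      · exact ⟨hyA, hy0.le⟩
    have := Finset.card_le_card this
    rw [Finset.card_pair hxy, hAp] at this
    omega
  · rintro (rfl | hn) A hA
    · unfold IsPencil
      rw [← mu_one]
      apply le_antisymm
      · rcases Nat.lt_or_ge n 2 with h | h
        · have hn1 : n = 1 := by omega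
          subst hn1
          have := mu_full hA.1
          omega
        · obtain ⟨A', P, hA', hPA, hPc, hPpos, hneg, _⟩ := twoLevel 1 (n - 1) le_rfl (by omega)
          have h1 : 1 + (n - 1) = n := by omega
          rw [h1] at hA'
          refine (hA.2 A' hA').trans ?_
          rw [mu_one, ← hPc]
          apply Finset.card_le_card
          intro a ha
          rw [Finset.mem_filter] at ha
          by_contra haP
          exact absurd ha.2 (not_le.2 (hneg a ha.1 haP))
      · obtain ⟨a, ha, ha0⟩ := exists_nonneg (by omega) hA.1
        rw [mu_one]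
        exact Finset.card_pos.2 ⟨a, Finset.mem_filter.2 ⟨ha, ha0⟩⟩
    · rcases Nat.lt_or_ge n 2 with h | h
      · have hn1 : n = 1 := by omega
        subst hn1
        have hk1 : k = 1 := by omega
        subst hk1
        unfold IsPencil
        rw [← mu_one]
        exact mu_full hA.1
      · have hn1 : n = 2 := by omega
        subst hn1
        exact (two_pencil hA.1).1
  · intro hall
    by_contra hcon
    push Not at hcon
    obtain ⟨hn2, hk1⟩ := hcon
    rcases Nat.lt_or_ge n 2 with h | h
    · have hn1 : n = 1 := by omega
      subst hn1
      have hk1 : k = 1 := by omega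
      subst hk1
      obtain ⟨A₀, hA₀⟩ := exists_admissible (n := 1) (by omega)
      obtain ⟨E, hE⟩ := exists_max 1 hA₀
      have hEp := hall E hE
      rw [one_eq hE.1] at hEp
      obtain ⟨x, hx, hx0, _⟩ := antipencil_elt hEp
      rw [Finset.mem_singleton] at hx
      rw [hx] at hx0
      exact lt_irrefl _ hx0
    · have hn3 : 3 ≤ n := by omega
      have hk2 : 2 ≤ k := by
        by_contra hc
        have := hk1 (by omega)
        omega
      obtain ⟨A₀, hA₀⟩ := exists_admissible (n := n) (by omega)
      obtain ⟨E, hE⟩ := exists_max k hA₀
      have hEp := hall E hE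
      -- the one positive, `n - 1` negative elements set
      obtain ⟨T, P, hT, hPT, hPc, hPpos, hTneg, _⟩ := twoLevel 1 (n - 1) le_rfl (by omega)
      have h1n : 1 + (n - 1) = n := by omega
      rw [h1n] at hT
      have hTneg' : n - 1 ≤ (T.filter (fun a => a < 0)).card := by
        have : T \ P ⊆ T.filter (fun a => a < 0) := by
          intro a ha
          rw [Finset.mem_sdiff] at ha
          exact Finset.mem_filter.2 ⟨ha.1, hTneg a ha.1 ha.2⟩
        have := Finset.card_le_card this
        rw [Finset.card_sdiff_of_subset hPT, hT.1, hPc] at this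
        exact this
      have hTnot : ¬ IsAntiPencil T := by
        intro hh
        unfold IsAntiPencil at hh
        omega
      rcases Nat.lt_or_ge k (n - 1) with hkn1 | hkn1
      · obtain ⟨x, hx, hx0, hxu⟩ := antipencil_elt hEp
        have hup : mu k E ≤ (n - 1).choose k := by
          apply mu_le_costar hE.1 hx
          intro B hB hBk hxB
          rw [sum_compl hE.1.2 hB]
          have hc : 2 ≤ (E \ B).card := by
            rw [Finset.card_sdiff_of_subset hB, hE.1.1, hBk]; omega
          have hnn : ∀ b ∈ E \ B, 0 ≤ b := by
            intro b hb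
            rw [Finset.mem_sdiff] at hb
            exact hxu b hb.1 (fun h => hb.2 (h ▸ hxB))
          have hpos : 0 < ∑ b ∈ E \ B, b := by
            rcases (Finset.sum_nonneg hnn).lt_or_eq with h | h
            · exact h
            · exfalso
              have h0 := (Finset.sum_eq_zero_iff_of_nonneg hnn).1 h.symm
              have : E \ B ⊆ {0} := fun a ha => Finset.mem_singleton.2 (h0 a ha)
              have := Finset.card_le_card this
              rw [Finset.card_singleton] at this
              omega
          linarith
        obtain ⟨A, x', y, hA, hx'A, hyA, hxy, hx'0, hy0, hneg⟩ := litSet n (by omega)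
        set A' : Finset ℝ := A.image (fun x => -x) with hA'def
        have hA' : Admissible n A' := neg_admissible hA
        have hlow : (n - 1).choose k ≤ mu k A' := by
          apply costar_le_mu (x := -x') hA' (Finset.mem_image_of_mem _ hx'A)
          intro B hB hBk hxB
          have hB1 : B.image (fun x => -x) ⊆ A := by
            intro b hb
            obtain ⟨c, hc, rfl⟩ := Finset.mem_image.1 hb
            obtain ⟨d, hd, hde⟩ := Finset.mem_image.1 (hB hc)
            rw [← hde, neg_neg]; exact hd
          have hB2 : x' ∉ B.image (fun x => -x) := by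
            intro hb
            obtain ⟨c, hc, hce⟩ := Finset.mem_image.1 hb
            apply hxB
            rw [← hce, neg_neg]; exact hc
          have hB3 : 2 ≤ (B.image (fun x => -x)).card := by
            rw [Finset.card_image_of_injective _ neg_injective]; omega
          have := hneg _ hB1 hB2 hB3
          rw [Finset.sum_image (fun _ _ _ _ h => neg_injective h),
            Finset.sum_neg_distrib] at this
          linarith
        have hAe : IsMaxExtremal k n A' :=
          ⟨hA', fun A'' hA'' => (hE.2 A'' hA'').trans (hup.trans hlow)⟩
        have hAp := hall A' hAe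
        unfold IsAntiPencil at hAp
        have hsub : ({-x', -y} : Finset ℝ) ⊆ A'.filter (fun a => a < 0) := by
          intro z hz
          rw [Finset.mem_insert, Finset.mem_singleton] at hz
          rw [Finset.mem_filter]
          rcases hz with rfl | rfl
          · exact ⟨Finset.mem_image_of_mem _ hx'A, by linarith⟩
          · exact ⟨Finset.mem_image_of_mem _ hyA, by linarith⟩
        have := Finset.card_le_card hsub
        rw [Finset.card_pair (fun h => hxy (neg_injective h)), hAp] at this
        omega
      · rcases Nat.lt_or_ge k n with hkn2 | hkn2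
        · have hkk : k = n - 1 := by omega
          subst hkk
          have h1 := mu_pred_le_two (by omega) hE.1 hEp
          have h2 := neg_le_mu_pred hT
          have hTe : IsMaxExtremal (n - 1) n T :=
            ⟨hT, fun A'' hA'' => (hE.2 A'' hA'').trans (by omega)⟩
          exact hTnot (hall T hTe)
        · have hkk : k = n := by omega
          subst hkk
          have hTe : IsMaxExtremal k k T := by
            refine ⟨hT, fun A'' hA'' => ?_⟩
            rw [mu_full hA'', mu_full hT]
          exact hTnot (hall T hTe)
  · rintro (rfl | ⟨rfl, hn⟩) A hA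
    · exact (two_pencil hA.1).2
    · obtain ⟨T, P, hT, hPT, hPc, hPpos, hTneg, _⟩ := twoLevel (n - 1) 1 (by omega) le_rfl
      have h1n : (n - 1) + 1 = n := by omega
      rw [h1n] at hT
      have h1 : n - 1 ≤ mu 1 T := by
        rw [mu_one, ← hPc]
        apply Finset.card_le_card
        intro a ha
        exact Finset.mem_filter.2 ⟨hPT ha, (hPpos a ha).le⟩
      have h2 := hA.2 T hT
      obtain ⟨a, ha, ha0⟩ := exists_neg hn hA.1
      have h3 : (A.filter (fun a => 0 ≤ a)).card + (A.filter (fun a => a < 0)).card = n := by
        rw [← hA.1.1]
        have := Finset.card_filter_add_card_filter_not (s := A) (fun a : ℝ => 0 ≤ a)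
        simpa only [not_le] using this
      have h4 : 1 ≤ (A.filter (fun a => a < 0)).card :=
        Finset.card_pos.2 ⟨a, Finset.mem_filter.2 ⟨ha, ha0⟩⟩
      rw [mu_one A] at h2
      unfold IsAntiPencil
      omega

end Pool.Agent.Results.MP_1e901d_co.ElementReading
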