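import Pool.Agent.Lib.MP_1e901d_co.StepEquiv

/-! MP_1e901d_co : the answers to both questions are closed under `n ↦ n + k`, and the answer to
the second question is contained in the answer to the first. -/

namespace Pool.Agent.Results.MP_1e901d_co.ResidueClasses

open Finset Pool.Agent.Lib.MP1e901d
open scoped Classical

/-- the values of `n` for which one of the two properties can hold are at least `2 k` -/
theorem two_mul_le {k n : ℕ} (hk : 1 ≤ k) (hkn : k < n)
    (h : n ≤ 3 * k → (k = 1 ∨ k = n ∨ (k ∣ n ∧ 3 * k ≤ n) ∨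
      (k - 1) * (2 * k ^ 2 - 1) < n - 1)) : 2 * k ≤ n := by
  by_contra hcon
  rcases h (by omega) with h | h | h | h
  · omega
  · omega
  · omega
  · have hk2 : 2 ≤ k := by omega
    have h1 : 2 * k ≤ k ^ 2 := by nlinarith
    have h2 : 1 * (2 * k ^ 2 - 1) ≤ (k - 1) * (2 * k ^ 2 - 1) :=
      Nat.mul_le_mul_right _ (by omega)
    omega

theorem step_min {k n : ℕ} (hk : 1 ≤ k) (hkn : k < n)
    (h : ∀ A, IsMinExtremal k n A → IsPencilFamily k A) :
    ∀ A, IsMinExtremal k (n + k) A → IsPencilFamily k A := by
  have h2k : 2 * k ≤ n := two_mul_le hk hkn (fun h3 =>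
    (Pool.Agent.Results.MP_1e901d_co.PencilFamilies.classification k n hk hkn.le (Or.inl h3)).1.1 h)
  apply (min_iff hk (by omega)).2
  exact step (R := fun s => 0 ≤ s) (fun b t q h1 h2 h3 => by
    have h4 : b ≤ 0 := (not_le.1 h1).le
    have h5 : 0 ≤ t := h2
    have h6 := mul_nonneg h3 (neg_nonneg.2 h4)
    show 0 ≤ t - q * b
    linarith) hk h2k ((min_iff hk hkn).1 h)

theorem step_max {k n : ℕ} (hk : 1 ≤ k) (hkn : k < n)
    (h : ∀ A, IsMaxExtremal k n A → IsAntiPencilFamily k A) :
    ∀ A, IsMaxExtremal k (n + k) A → IsAntiPencilFamily k A := by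
  have h2k : 2 * k ≤ n := two_mul_le hk hkn (fun h3 => by
    rcases (Pool.Agent.Results.MP_1e901d_co.PencilFamilies.classification k n hk hkn.le (Or.inl h3)).2.1 h with h | h
    · exact Or.inr (Or.inr (Or.inl h))
    · exact Or.inr (Or.inr (Or.inr h)))
  apply (max_iff hk (by omega)).2
  have := climb hk h2k ((max_iff hk hkn).1 h) 1
  rwa [one_mul] at this

/-- **Structure of the two answers.**  Let `1 ≤ k < n`.  If the non-negative `k`-subsets of every
extremal example for the minimum at `(k, n)` are those through a fixed element, then the same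
holds at `(k, n + k)`; if the non-negative `k`-subsets of every extremal example for the maximum
at `(k, n)` are those avoiding a fixed element, then the same holds at `(k, n + k)`, and the
statement for the minimum holds at `(k, n)`. -/
theorem result (k n : ℕ) (hk : 1 ≤ k) (hkn : k < n) :
    ((∀ A, IsMinExtremal k n A → IsPencilFamily k A) →
      ∀ A, IsMinExtremal k (n + k) A → IsPencilFamily k A) ∧
    ((∀ A, IsMaxExtremal k n A → IsAntiPencilFamily k A) →
      (∀ A, IsMaxExtremal k (n + k) A → IsAntiPencilFamily k A) ∧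
      ∀ A, IsMinExtremal k n A → IsPencilFamily k A) :=
  ⟨step_min hk hkn, fun h => ⟨step_max hk hkn h,
    (min_iff hk hkn).2 (starMin_of_neg ((max_iff hk hkn).1 h))⟩⟩

end Pool.Agent.Results.MP_1e901d_co.ResidueClasses
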