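import Pool.Agent.Lib.MP_1e901d_co.StepEquiv
import Pool.Agent.Lib.MP_1e901d_co.Three
import Pool.Agent.Lib.MP_1e901d_co.Four
import Pool.Agent.Lib.MP_1e901d_co.Five.Star
import Pool.Agent.Lib.MP_1e901d_co.Six.Final

/-! MP_1e901d_co : the pairs `(k, n)` with `2 ≤ k ≤ 6`. -/

namespace Pool.Agent.Results.MP_1e901d_co.UpToSix

open Finset Pool.Agent.Lib.MP1e901d
open scoped Classical

theorem divisible {k n : ℕ} (hk : 1 ≤ k) (hkn : k < n) (hd : k ∣ n) (h3 : 3 * k ≤ n) :
    StarMin (fun s => s < 0) k n :=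
  (max_iff hk hkn).1 ((PencilFamilies.classification k n hk hkn.le (Or.inr (Or.inl hd))).2.2
    (Or.inl ⟨hd, h3⟩))

theorem two (n : ℕ) (h : n = 6 ∨ 8 ≤ n) : StarMin (fun s => s < 0) 2 n := by
  by_cases hd : 2 ∣ n
  · exact divisible (by norm_num) (by omega) hd (by omega)
  · have hlt : (2 - 1) * (2 * 2 ^ 2 - 1) < n - 1 := by norm_num; omega
    exact (max_iff (by norm_num) (by omega)).1 ((PencilFamilies.classification 2 n (by norm_num)
      (by omega) (Or.inr (Or.inr (Or.inr hlt)))).2.2 (Or.inr hlt))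

theorem three (n : ℕ) (h : n = 9 ∨ 11 ≤ n) : StarMin (fun s => s < 0) 3 n := by
  by_cases hd : 3 ∣ n
  · exact divisible (by norm_num) (by omega) hd (by omega)
  · have h' : n % 3 = 1 ∨ n % 3 = 2 := by omega
    rcases h' with h' | h'
    · obtain ⟨m, rfl⟩ : ∃ m, n = 13 + m * 3 := ⟨(n - 13) / 3, by omega⟩
      exact climb (by norm_num) (by norm_num) starMin3_13 m
    · obtain ⟨m, rfl⟩ : ∃ m, n = 11 + m * 3 := ⟨(n - 11) / 3, by omega⟩
      exact climb (by norm_num) (by norm_num) starMin3_11 m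

theorem four (n : ℕ) (h : n = 12 ∨ 14 ≤ n) : StarMin (fun s => s < 0) 4 n := by
  by_cases hd : 4 ∣ n
  · exact divisible (by norm_num) (by omega) hd (by omega)
  · have h' : n % 4 = 1 ∨ n % 4 = 2 ∨ n % 4 = 3 := by omega
    rcases h' with h' | h' | h'
    · obtain ⟨m, rfl⟩ : ∃ m, n = 17 + m * 4 := ⟨(n - 17) / 4, by omega⟩
      exact climb (by norm_num) (by norm_num) starMin4_17 m
    · obtain ⟨m, rfl⟩ : ∃ m, n = 14 + m * 4 := ⟨(n - 14) / 4, by omega⟩
      exact climb (by norm_num) (by norm_num) starMin4_14 m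
    · obtain ⟨m, rfl⟩ : ∃ m, n = 15 + m * 4 := ⟨(n - 15) / 4, by omega⟩
      exact climb (by norm_num) (by norm_num) starMin4_15 m

theorem five (n : ℕ) (h : n = 15 ∨ 17 ≤ n) : StarMin (fun s => s < 0) 5 n := by
  by_cases hd : 5 ∣ n
  · exact divisible (by norm_num) (by omega) hd (by omega)
  · have h' : n % 5 = 1 ∨ n % 5 = 2 ∨ n % 5 = 3 ∨ n % 5 = 4 := by omega
    rcases h' with h' | h' | h' | h'
    · obtain ⟨m, rfl⟩ : ∃ m, n = 21 + m * 5 := ⟨(n - 21) / 5, by omega⟩
      exact climb (by norm_num) (by norm_num) starMin5_21 m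
    · obtain ⟨m, rfl⟩ : ∃ m, n = 17 + m * 5 := ⟨(n - 17) / 5, by omega⟩
      exact climb (by norm_num) (by norm_num) starMin5_17 m
    · obtain ⟨m, rfl⟩ : ∃ m, n = 18 + m * 5 := ⟨(n - 18) / 5, by omega⟩
      exact climb (by norm_num) (by norm_num) starMin5_18 m
    · obtain ⟨m, rfl⟩ : ∃ m, n = 19 + m * 5 := ⟨(n - 19) / 5, by omega⟩
      exact climb (by norm_num) (by norm_num) starMin5_19 m

theorem six (n : ℕ) (h : n = 18 ∨ 20 ≤ n) : StarMin (fun s => s < 0) 6 n := by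
  by_cases hd : 6 ∣ n
  · exact divisible (by norm_num) (by omega) hd (by omega)
  · have h' : n % 6 = 1 ∨ n % 6 = 2 ∨ n % 6 = 3 ∨ n % 6 = 4 ∨ n % 6 = 5 := by omega
    rcases h' with h' | h' | h' | h' | h'
    · obtain ⟨m, rfl⟩ : ∃ m, n = 25 + m * 6 := ⟨(n - 25) / 6, by omega⟩
      exact climb (by norm_num) (by norm_num) starMin6_25 m
    · obtain ⟨m, rfl⟩ : ∃ m, n = 20 + m * 6 := ⟨(n - 20) / 6, by omega⟩
      exact climb (by norm_num) (by norm_num) starMin6_20 m
    · obtain ⟨m, rfl⟩ : ∃ m, n = 21 + m * 6 := ⟨(n - 21) / 6, by omega⟩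
      exact climb (by norm_num) (by norm_num) starMin6_21 m
    · obtain ⟨m, rfl⟩ : ∃ m, n = 22 + m * 6 := ⟨(n - 22) / 6, by omega⟩
      exact climb (by norm_num) (by norm_num) starMin6_22 m
    · obtain ⟨m, rfl⟩ : ∃ m, n = 23 + m * 6 := ⟨(n - 23) / 6, by omega⟩
      exact climb (by norm_num) (by norm_num) starMin6_23 m

theorem all (k n : ℕ) (hk : 2 ≤ k) (hk4 : k ≤ 6) (h : n = 3 * k ∨ 3 * k + 2 ≤ n) :
    StarMin (fun s => s < 0) k n := by
  have h' : k = 2 ∨ k = 3 ∨ k = 4 ∨ k = 5 ∨ k = 6 := by omega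
  rcases h' with rfl | rfl | rfl | rfl | rfl
  · exact two n (by omega)
  · exact three n (by omega)
  · exact four n (by omega)
  · exact five n (by omega)
  · exact six n (by omega)

/-- below `3 k + 2` -/
theorem small (k n : ℕ) (hk : 2 ≤ k) (hk4 : k ≤ 6) (hn : n ≤ 3 * k + 1) :
    (n ≤ 3 * k ∨ k ∣ n ∨ (n - 3).choose k ≤ (n - 1).choose (k - 1) ∨
      (k - 1) * (2 * k ^ 2 - 1) < n - 1) ∧ ¬ ((k - 1) * (2 * k ^ 2 - 1) < n - 1) := by
  have h' : k = 2 ∨ k = 3 ∨ k = 4 ∨ k = 5 ∨ k = 6 := by omega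
  rcases Nat.lt_or_ge (3 * k) n with h | h
  · have hn' : n = 3 * k + 1 := by omega
    subst hn'
    rcases h' with rfl | rfl | rfl | rfl | rfl
    · exact ⟨Or.inr (Or.inr (Or.inl (by decide))), by norm_num⟩
    · exact ⟨Or.inr (Or.inr (Or.inl (by decide))), by norm_num⟩
    · exact ⟨Or.inr (Or.inr (Or.inl (by decide))), by norm_num⟩
    · exact ⟨Or.inr (Or.inr (Or.inl (by decide +kernel))), by norm_num⟩
    · exact ⟨Or.inr (Or.inr (Or.inl (by decide +kernel))), by norm_num⟩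
  · refine ⟨Or.inl h, ?_⟩
    rcases h' with rfl | rfl | rfl | rfl | rfl
    · norm_num; omega
    · norm_num; omega
    · norm_num; omega
    · norm_num; omega
    · norm_num; omega

theorem not_dvd_of_lt {k n : ℕ} (h1 : 3 * k < n) (h2 : n < 4 * k) : ¬ k ∣ n := by
  rintro ⟨m, rfl⟩
  rcases Nat.lt_or_ge m 4 with h | h
  · have : k * m ≤ k * 3 := Nat.mul_le_mul_left k (by omega)
    omega
  · have : k * 4 ≤ k * m := Nat.mul_le_mul_left k h
    omega

/-- **The pairs `(k, n)` with `2 ≤ k ≤ 6`.**  For `2 ≤ k ≤ 6` and all `n ≥ k` the non-negative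
`k`-subsets of every extremal example for the minimum are those through a fixed element iff
`n = k`, `n = 3 k` or `n ≥ 3 k + 2`, and the non-negative `k`-subsets of every extremal example
for the maximum are those avoiding a fixed element iff `n = 3 k` or `n ≥ 3 k + 2`. -/
theorem result (k n : ℕ) (hk : 2 ≤ k) (hk4 : k ≤ 6) (hkn : k ≤ n) :
    ((∀ A, IsMinExtremal k n A → IsPencilFamily k A) ↔ (n = k ∨ n = 3 * k ∨ 3 * k + 2 ≤ n)) ∧
    ((∀ A, IsMaxExtremal k n A → IsAntiPencilFamily k A) ↔ (n = 3 * k ∨ 3 * k + 2 ≤ n)) := by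
  rcases Nat.lt_or_ge n (3 * k + 2) with hlt | hge
  · obtain ⟨h1, h2⟩ := small k n hk hk4 (by omega)
    obtain ⟨h3, h4⟩ := PencilFamilies.classification k n (by omega) hkn h1
    have h5 : k ∣ n → 3 * k ≤ n → n = 3 * k := by
      intro hd h3k
      by_contra hne
      exact not_dvd_of_lt (by omega) (by omega) hd
    constructor
    · rw [h3]
      constructor
      · rintro (h | h | h | h)
        · omega
        · exact Or.inl h.symm
        · exact Or.inr (Or.inl (h5 h.1 h.2))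
        · exact absurd h h2
      · rintro (h | h | h)
        · exact Or.inr (Or.inl h.symm)
        · exact Or.inr (Or.inr (Or.inl ⟨⟨3, by omega⟩, by omega⟩))
        · omega
    · rw [h4]
      constructor
      · rintro (h | h)
        · exact Or.inl (h5 h.1 h.2)
        · exact absurd h h2
      · rintro (h | h)
        · exact Or.inl ⟨⟨3, by omega⟩, by omega⟩
        · omega
  · have h := all k n hk hk4 (Or.inr hge)
    exact ⟨⟨fun _ => Or.inr (Or.inr hge), fun _ =>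
      (min_iff (by omega) (by omega)).2 (starMin_of_neg h)⟩,
      ⟨fun _ => Or.inr hge, fun _ => (max_iff (by omega) (by omega)).2 h⟩⟩

end Pool.Agent.Results.MP_1e901d_co.UpToSix
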